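import Mathlib
import Pool.Agent.BSH.Stmts

set_option autoImplicit false

/-! Squad BSH (MP_b2b50d_lc), row CIR: circuits are cheap. -/

namespace Pool.Agent.BSH.H44

open MvPolynomial Pool.Agent.Helper78_ACIT Pool.Agent.BSH

theorem sp_mono_cons {E A : Type} [Field E] [CommRing A] [Algebra E A] (B : Set A) (g : A)
    (l : List A) : sp E B l ≤ sp E B (g :: l) := by
  unfold sp
  apply Submodule.span_mono
  intro x hx
  rcases hx with hx | hx
  · exact Or.inl hx
  · exact Or.inr (List.mem_cons_of_mem _ hx)

theorem one_mem_sp {E A : Type} [Field E] [CommRing A] [Algebra E A] (B : Set A)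
    (l : List A) : (1 : A) ∈ sp E B l :=
  Submodule.subset_span (Or.inl (Or.inl rfl))

theorem base_mem_sp {E A : Type} [Field E] [CommRing A] [Algebra E A] {B : Set A}
    (l : List A) {x : A} (hx : x ∈ B) : x ∈ sp E B l :=
  Submodule.subset_span (Or.inl (Or.inr hx))

theorem getD_mem_sp {E A : Type} [Field E] [CommRing A] [Algebra E A] {B : Set A}
    {l acc : List A} (h : ∀ v ∈ acc, v ∈ sp E B l) (i : ℕ) : acc.getD i 0 ∈ sp E B l := by
  rw [List.getD_eq_getElem?_getD]
  cases hc : acc[i]? with
  | none => simp
  | some v =>
    simp only [Option.getD_some]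
    exact h v (List.mem_of_getElem? hc)

theorem run_cheap {E A : Type} [Field E] [CommRing A] [Algebra E A] (B : Set A) (x : ℕ → A) :
    ∀ (C : List Gate) (acc l : List A), (∀ v, Gate.var v ∈ C → x v ∈ B) → Ch E B l →
      (∀ v ∈ acc, v ∈ sp E B l) →
      ∃ l' : List A, l'.length ≤ l.length + C.countP isMul ∧ Ch E B l' ∧
        ∀ v ∈ C.foldl (fun vals g => vals ++ [g.value x vals]) acc, v ∈ sp E B l' := by
  intro C
  induction C with
  | nil =>
    intro acc l _ hl hacc
    exact ⟨l, by simp, hl, hacc⟩
  | cons g C ih =>
    intro acc l hv hl hacc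
    have hvC : ∀ v, Gate.var v ∈ C → x v ∈ B := fun v h => hv v (List.mem_cons_of_mem _ h)
    -- a gate which is not a product
    have free : isMul g = false → g.value x acc ∈ sp E B l →
        ∃ l' : List A, l'.length ≤ l.length + (g :: C).countP isMul ∧ Ch E B l' ∧
        ∀ v ∈ (g :: C).foldl (fun vals g => vals ++ [g.value x vals]) acc, v ∈ sp E B l' := by
      intro hg hval
      obtain ⟨l', h1, h2, h3⟩ := ih (acc ++ [g.value x acc]) l hvC hl (by
        intro v hvv
        rcases List.mem_append.mp hvv with h | h
        · exact hacc v h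
        · rw [List.mem_singleton] at h
          rw [h]
          exact hval)
      refine ⟨l', ?_, h2, h3⟩
      rw [List.countP_cons, hg]
      simpa using h1
    cases g with
    | zero => exact free rfl (Submodule.zero_mem _)
    | one => exact free rfl (one_mem_sp B l)
    | var j => exact free rfl (base_mem_sp l (hv j List.mem_cons_self))
    | add a b =>
      exact free rfl (Submodule.add_mem _ (getD_mem_sp hacc a) (getD_mem_sp hacc b))
    | sub a b =>
      exact free rfl (Submodule.sub_mem _ (getD_mem_sp hacc a) (getD_mem_sp hacc b))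
    | mul a b =>
      obtain ⟨l', h1, h2, h3⟩ := ih (acc ++ [acc.getD a 0 * acc.getD b 0])
        ((acc.getD a 0 * acc.getD b 0) :: l) hvC
        ⟨hl, _, getD_mem_sp hacc a, _, getD_mem_sp hacc b, rfl⟩ (by
        intro v hvv
        rcases List.mem_append.mp hvv with h | h
        · exact sp_mono_cons B _ l (hacc v h)
        · rw [List.mem_singleton] at h
          rw [h]
          exact Submodule.subset_span (Or.inr List.mem_cons_self))
      refine ⟨l', ?_, h2, h3⟩
      rw [List.countP_cons]
      simp only [isMul, if_true]
      simp only [List.length_cons] at h1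
      omega

theorem cir : CirStmt := by
  intro E _ n s G _ hG hs
  have h0 : map (Int.castRingHom E) (poly G) = out (X : ℕ → MvPolynomial ℕ E) G := by
    unfold poly
    rw [out_map]
    simp only [map_X]
  rw [h0]
  obtain ⟨l, h1, h2, h3⟩ := run_cheap (E := E) (vs E n) (X : ℕ → MvPolynomial ℕ E) G [] []
    (fun v hv => ⟨v, hG v hv, rfl⟩) trivial (fun v hv => absurd hv List.not_mem_nil)
  refine ⟨l, ?_, h2, ?_⟩
  · simp only [List.length_nil, zero_add] at h1
    exact h1.trans hs
  · unfold out values
    rw [List.getLastD_eq_getLast?]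
    cases hc : (List.foldl (fun vals g => vals ++ [Gate.value (X : ℕ → MvPolynomial ℕ E) vals g])
      [] G).getLast? with
    | none => simp
    | some v =>
      simp only [Option.getD_some]
      exact h3 v (List.mem_of_getLast? hc)

end Pool.Agent.BSH.H44
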